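import Pool.Agent.W872.MX.Stm

/-!
# Total weight in terms of the costs (part WGT of project MX)
-/

set_option autoImplicit false

namespace Pool.Agent.W40.MX

open Finset W872.MX

theorem edges_eq {n : ℕ} (K : SimpleGraph (Fin n)) [DecidableRel K.Adj]
    (f : Fin n → ℕ) (hf : ∀ v, f v = (univ.filter (fun u => u ≠ v ∧ ¬ K.Adj v u)).card) :
    (K.edgeSet.ncard : ℝ) = (n.choose 2 : ℝ) - (1 / 2) * ∑ v : Fin n, (f v : ℝ) := by
  classical
  have h1 : K.edgeSet.ncard = K.edgeFinset.card := by
    rw [← SimpleGraph.coe_edgeFinset, Set.ncard_coe_finset]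
  have h2 := K.sum_degrees_eq_twice_card_edges
  have h3 : ∀ v, K.degree v + f v + 1 = n := by
    intro v
    have e1 : K.degree v = (univ.filter (fun u => K.Adj v u)).card := by
      rw [← SimpleGraph.card_neighborFinset_eq_degree, SimpleGraph.neighborFinset_eq_filter]
    have e2 : (univ.filter (fun u : Fin n => u = v)).card = 1 := by
      rw [Finset.filter_eq' univ v, if_pos (mem_univ _), card_singleton]
    rw [e1, hf, ← e2, ← card_union_of_disjoint, ← card_union_of_disjoint]
    · have : ((univ.filter (fun u => K.Adj v u)) ∪ (univ.filter (fun u => u ≠ v ∧ ¬ K.Adj v u))) ∪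
          (univ.filter (fun u : Fin n => u = v)) = univ := by
        ext u
        simp only [mem_union, mem_filter, mem_univ, true_and, iff_true]
        by_cases h : u = v
        · exact Or.inr h
        · by_cases h' : K.Adj v u
          · exact Or.inl (Or.inl h')
          · exact Or.inl (Or.inr ⟨h, h'⟩)
      rw [this, card_univ, Fintype.card_fin]
    · rw [Finset.disjoint_left]
      intro u hu hu'
      simp only [mem_union, mem_filter, mem_univ, true_and] at hu hu'
      subst hu'
      rcases hu with h | h
      · exact K.irrefl h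
      · exact h.1 rfl
    · rw [Finset.disjoint_left]
      intro u hu hu'
      simp only [mem_filter, mem_univ, true_and] at hu hu'
      exact hu'.2 hu
  have h4 : (∑ v : Fin n, ((K.degree v : ℝ) + (f v : ℝ) + 1)) = n * n := by
    rw [Finset.sum_congr rfl (fun v _ => show (K.degree v : ℝ) + (f v : ℝ) + 1 = n by
      exact_mod_cast h3 v)]
    simp
  have h5 : (∑ v : Fin n, (K.degree v : ℝ)) = 2 * (K.edgeFinset.card : ℝ) := by
    exact_mod_cast h2
  rw [Finset.sum_add_distrib, Finset.sum_add_distrib, h5] at h4
  simp only [Finset.sum_const, Finset.card_univ, Fintype.card_fin, nsmul_eq_mul, mul_one] at h4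
  rw [h1, Nat.cast_choose_two]
  linarith

theorem main : PartWGT := by
  classical
  intro n G p
  have hr := edges_eq G.red (nonred G univ) (fun v => by
    unfold nonred
    congr 1)
  have hb := edges_eq G.blue (nonblue G univ) (fun v => by
    unfold nonblue
    congr 1)
  unfold MG.weight
  rw [hr, hb, Finset.sum_add_distrib, ← Finset.mul_sum, ← Finset.mul_sum]
  ring

end Pool.Agent.W40.MX
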